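import Pool.Agent.MP_51245c_nt.Check

/-!
Real analysis of the norm form for the Hessenberg family of `MP_51245c_nt`.
-/

set_option autoImplicit false

namespace Pool.Agent.MP_51245c_nt

/-- `t` is the real root bigger than `1` of `x ^ 3 - P x ^ 2 + R x - 1`, and the other two roots
are non-real. -/
structure Data (P R : ℤ) (t σ : ℝ) : Prop where
  ht : 1 < t
  hP : (P : ℝ) = t + σ / t
  hR : (R : ℝ) = σ + 1 / t
  hD : σ ^ 2 < 4 * t

theorem exists_data {P R : ℤ} (hRP : R < P)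
    (hdisc : P ^ 2 * R ^ 2 - 4 * R ^ 3 - 4 * P ^ 3 + 18 * P * R - 27 < 0) :
    ∃ t σ : ℝ, Data P R t σ := by
  set f : ℝ → ℝ := fun x => x ^ 3 - P * x ^ 2 + R * x - 1 with hf
  have hcont : ContinuousOn f (Set.Icc 1 (|(P : ℝ)| + |(R : ℝ)| + 2)) := by
    apply Continuous.continuousOn
    fun_prop
  have hM : (1 : ℝ) ≤ |(P : ℝ)| + |(R : ℝ)| + 2 := by
    have := abs_nonneg (P : ℝ)
    have := abs_nonneg (R : ℝ)
    linarith
  have h1 : f 1 < 0 := by
    have : (R : ℝ) < P := by exact_mod_cast hRP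
    simp only [hf]
    linarith
  have h2 : 0 ≤ f (|(P : ℝ)| + |(R : ℝ)| + 2) := by
    simp only [hf]
    have hp := abs_nonneg (P : ℝ)
    have hr := abs_nonneg (R : ℝ)
    have hp' := le_abs_self (P : ℝ)
    have hr' := neg_abs_le (R : ℝ)
    set a := |(P : ℝ)|
    set b := |(R : ℝ)|
    have e1 : (P : ℝ) * (a + b + 2) ^ 2 ≤ a * (a + b + 2) ^ 2 :=
      mul_le_mul_of_nonneg_right hp' (by positivity)
    have e2 : -b * (a + b + 2) ≤ (R : ℝ) * (a + b + 2) :=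
      mul_le_mul_of_nonneg_right hr' (by positivity)
    have e3 : 0 ≤ (a + b + 2) ^ 3 - a * (a + b + 2) ^ 2 + -b * (a + b + 2) - 1 := by
      have : (a + b + 2) ^ 3 - a * (a + b + 2) ^ 2 + -b * (a + b + 2) - 1
          = (a + b + 2) * ((b + 2) * (a + b + 2) - b) - 1 := by ring
      rw [this]
      nlinarith [mul_nonneg hp hr, mul_nonneg hr hr]
    linarith
  obtain ⟨t, ht, hft⟩ := intermediate_value_Icc hM hcont ⟨h1.le, h2⟩
  have ht1 : t ≠ 1 := by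
    rintro rfl
    rw [hft] at h1
    exact lt_irrefl _ h1
  have ht2 : 1 < t := lt_of_le_of_ne ht.1 (Ne.symm ht1)
  have ht0 : t ≠ 0 := by positivity
  simp only [hf] at hft
  have hP : (P : ℝ) = t + ((R : ℝ) - 1 / t) / t := by
    field_simp
    linarith
  have hR : (R : ℝ) = ((R : ℝ) - 1 / t) + 1 / t := by ring
  refine ⟨t, (R : ℝ) - 1 / t, ⟨ht2, hP, hR, ?_⟩⟩
  set σ := (R : ℝ) - 1 / t with hσ
  by_contra hcon
  push Not at hcon
  have hdisc' : (P : ℝ) ^ 2 * (R : ℝ) ^ 2 - 4 * (R : ℝ) ^ 3 - 4 * (P : ℝ) ^ 3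
      + 18 * (P : ℝ) * (R : ℝ) - 27 < 0 := by exact_mod_cast hdisc
  have key : (t + σ / t) ^ 2 * (σ + 1 / t) ^ 2 - 4 * (σ + 1 / t) ^ 3 - 4 * (t + σ / t) ^ 3
      + 18 * (t + σ / t) * (σ + 1 / t) - 27
      = (σ ^ 2 - 4 * t) / t ^ 2 * (t ^ 2 - σ + 1 / t) ^ 2 := by
    field_simp
    ring
  rw [hP, hR, key] at hdisc'
  have : 0 ≤ (σ ^ 2 - 4 * t) / t ^ 2 * (t ^ 2 - σ + 1 / t) ^ 2 := by
    apply mul_nonneg
    · apply div_nonneg
      · linarith
      · positivity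
    · positivity
  linarith

/-- the linear factor -/
noncomputable def Lf (t U W C : ℝ) : ℝ := U + W * t + C / t

/-- the quadratic factor -/
noncomputable def Qf (t σ U W C : ℝ) : ℝ :=
  (U + (W / t + C) * σ / 2) ^ 2 + (W / t - C) ^ 2 * (4 * t - σ ^ 2) / 4

theorem NN_factor {t σ : ℝ} (ht : t ≠ 0) (U W C : ℝ) :
    NN (t + σ / t) (σ + 1 / t) U W C = Lf t U W C * Qf t σ U W C := by
  unfold NN Lf Qf
  field_simp
  ring

theorem Q_step {t σ : ℝ} (ht : t ≠ 0) (U W C : ℝ) :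
    Qf t σ (C - (σ + 1 / t) * W) (U + (t + σ / t) * W) W = Qf t σ U W C / t := by
  unfold Qf
  field_simp
  ring

theorem Q_back {t σ : ℝ} (ht : t ≠ 0) (U W C : ℝ) :
    Qf t σ (W - (t + σ / t) * C) C (U + (σ + 1 / t) * C) = Qf t σ U W C * t := by
  unfold Qf
  field_simp
  ring

theorem NN_step {A : Type} [CommRing A] (P R U W C : A) :
    NN P R (C - R * W) (U + P * W) W = NN P R U W C := by
  unfold NN
  ring

theorem NN_back {A : Type} [CommRing A] (P R U W C : A) :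
    NN P R (W - P * C) C (U + R * C) = NN P R U W C := by
  unfold NN
  ring

theorem NN_cast (P R U W C : ℤ) :
    ((NN P R U W C : ℤ) : ℝ) = NN (P : ℝ) R U W C := by
  unfold NN
  push_cast
  ring

/-- the root is irrational -/
theorem irr {P R : ℤ} {t σ : ℝ} (h : Data P R t σ) (h1 : P ≠ R) (h2 : P + R + 2 ≠ 0)
    {W C : ℤ} (hWC : (W : ℝ) / t = C) : W = 0 ∧ C = 0 := by
  have ht0 : t ≠ 0 := by have := h.ht; positivity
  have hW : (W : ℝ) = C * t := by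
    field_simp at hWC
    linarith
  by_cases hC : C = 0
  · subst hC
    refine ⟨?_, rfl⟩
    simpa using hW
  exfalso
  have hC' : (C : ℝ) ≠ 0 := by exact_mod_cast hC
  have hq : (((W : ℚ) / (C : ℚ) : ℚ) : ℝ) = t := by
    push_cast
    rw [hW]
    field_simp
  set q : ℚ := (W : ℚ) / (C : ℚ) with hqdef
  have hroot : t ^ 3 - P * t ^ 2 + R * t - 1 = 0 := by
    rw [h.hP, h.hR]
    field_simp
    ring
  have hrootq : q ^ 3 - P * q ^ 2 + R * q - 1 = 0 := by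
    rw [← hq] at hroot
    exact_mod_cast hroot
  have hint : IsIntegral ℤ q := by
    refine ⟨Polynomial.X ^ 3 - Polynomial.C P * Polynomial.X ^ 2 + Polynomial.C R * Polynomial.X
      - 1, ?_, ?_⟩
    · have : (Polynomial.X ^ 3 - Polynomial.C P * Polynomial.X ^ 2
          + Polynomial.C R * Polynomial.X - 1 : Polynomial ℤ)
          = Polynomial.X ^ 3 - (Polynomial.C P * Polynomial.X ^ 2
          - Polynomial.C R * Polynomial.X + 1) := by ring
      rw [this]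
      apply Polynomial.monic_X_pow_sub
      compute_degree
      norm_num
    · simp only [Polynomial.eval₂_sub, Polynomial.eval₂_add, Polynomial.eval₂_mul,
        Polynomial.eval₂_pow, Polynomial.eval₂_X, Polynomial.eval₂_C, Polynomial.eval₂_one]
      simpa using hrootq
  obtain ⟨y, hy⟩ := IsIntegrallyClosed.isIntegral_iff.mp hint
  have hy' : (y : ℚ) = q := by simpa using hy
  rw [← hy'] at hrootq
  have hyz : y ^ 3 - P * y ^ 2 + R * y - 1 = 0 := by exact_mod_cast hrootq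
  have hunit : y * (y ^ 2 - P * y + R) = 1 := by linarith
  have hy1 : y = 1 ∨ y = -1 := Int.isUnit_iff.mp (IsUnit.of_mul_eq_one _ hunit)
  rcases hy1 with rfl | rfl
  · apply h1
    linarith
  · apply h2
    linarith

theorem Q_pos {P R : ℤ} {t σ : ℝ} (h : Data P R t σ) (h1 : P ≠ R) (h2 : P + R + 2 ≠ 0)
    {U W C : ℤ} (hne : ¬ (U = 0 ∧ W = 0 ∧ C = 0)) : 0 < Qf t σ U W C := by
  have hD : 0 < 4 * t - σ ^ 2 := by linarith [h.hD]
  by_contra hcon
  push Not at hcon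
  unfold Qf at hcon
  have e1 : 0 ≤ ((U : ℝ) + (W / t + C) * σ / 2) ^ 2 := sq_nonneg _
  have e2 : 0 ≤ ((W : ℝ) / t - C) ^ 2 * (4 * t - σ ^ 2) / 4 := by positivity
  have e3 : ((W : ℝ) / t - C) ^ 2 * (4 * t - σ ^ 2) / 4 = 0 := by linarith
  have e4 : ((W : ℝ) / t - C) ^ 2 = 0 := by
    rcases mul_eq_zero.mp (by linarith : ((W : ℝ) / t - C) ^ 2 * (4 * t - σ ^ 2) = 0) with h | h
    · exact h
    · linarith
  have e5 : (W : ℝ) / t = C := by
    have := pow_eq_zero_iff (two_ne_zero) |>.mp e4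
    linarith
  obtain ⟨hW, hC⟩ := irr h h1 h2 e5
  have e6 : ((U : ℝ) + (W / t + C) * σ / 2) ^ 2 = 0 := by linarith
  have e7 := pow_eq_zero_iff (two_ne_zero) |>.mp e6
  rw [hW, hC] at e7
  simp at e7
  exact hne ⟨e7, hW, hC⟩

/-- the lattice conditions -/
def Lat (e U W C : ℤ) : Prop := 3 ∣ W + C ∧ 3 ∣ U + e * C ∧ 2 ∣ U + W + C

/-- congruence conditions on the parameters -/
def Cong (e P R : ℤ) : Prop :=
  ((e = 1 ∧ P % 3 = 1 ∧ R % 3 = 0) ∨ (e = -1 ∧ P % 3 = 0 ∧ R % 3 = 1)) ∧ (P - R) % 2 = 0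

theorem lat_step {e P R U W C : ℤ} (hc : Cong e P R) (h : Lat e U W C) :
    Lat e (C - R * W) (U + P * W) W := by
  obtain ⟨hc, hpar⟩ := hc
  obtain ⟨⟨j, hj⟩, ⟨l, hl⟩, ⟨q, hq⟩⟩ := h
  obtain ⟨d, hd⟩ : ∃ d, P - R = 2 * d := ⟨(P - R) / 2, by omega⟩
  rcases hc with ⟨rfl, hP, hR⟩ | ⟨rfl, hP, hR⟩
  · obtain ⟨a, ha⟩ : ∃ a, P = 3 * a + 1 := ⟨P / 3, by omega⟩
    obtain ⟨b, hb⟩ : ∃ b, R = 3 * b := ⟨R / 3, by omega⟩
    refine ⟨⟨l + 2 * j - C + a * W, ?_⟩, ⟨j - b * W, ?_⟩, ⟨q + d * W, ?_⟩⟩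
    · rw [ha]; linear_combination hl + 2 * hj
    · rw [hb]; linear_combination hj
    · linear_combination hq + W * hd
  · obtain ⟨a, ha⟩ : ∃ a, R = 3 * a + 1 := ⟨R / 3, by omega⟩
    obtain ⟨b, hb⟩ : ∃ b, P = 3 * b := ⟨P / 3, by omega⟩
    refine ⟨⟨l + j + b * W, ?_⟩, ⟨j - W - a * W, ?_⟩, ⟨q + d * W, ?_⟩⟩
    · rw [hb]; linear_combination hl + hj
    · rw [ha]; linear_combination hj
    · linear_combination hq + W * hd

theorem lat_back {e P R U W C : ℤ} (hc : Cong e P R) (h : Lat e U W C) :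
    Lat e (W - P * C) C (U + R * C) := by
  obtain ⟨hc, hpar⟩ := hc
  obtain ⟨⟨j, hj⟩, ⟨l, hl⟩, ⟨q, hq⟩⟩ := h
  obtain ⟨d, hd⟩ : ∃ d, P - R = 2 * d := ⟨(P - R) / 2, by omega⟩
  rcases hc with ⟨rfl, hP, hR⟩ | ⟨rfl, hP, hR⟩
  · obtain ⟨a, ha⟩ : ∃ a, P = 3 * a + 1 := ⟨P / 3, by omega⟩
    obtain ⟨b, hb⟩ : ∃ b, R = 3 * b := ⟨R / 3, by omega⟩
    refine ⟨⟨l + b * C, ?_⟩, ⟨j + l - C - a * C + b * C, ?_⟩, ⟨q - d * C, ?_⟩⟩
    · rw [hb]; linear_combination hl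
    · rw [ha, hb]; linear_combination hj + hl
    · linear_combination hq - C * hd
  · obtain ⟨a, ha⟩ : ∃ a, R = 3 * a + 1 := ⟨R / 3, by omega⟩
    obtain ⟨b, hb⟩ : ∃ b, P = 3 * b := ⟨P / 3, by omega⟩
    refine ⟨⟨l + C + a * C, ?_⟩, ⟨j - l - C - b * C - a * C, ?_⟩, ⟨q - d * C, ?_⟩⟩
    · rw [ha]; linear_combination hl
    · rw [ha, hb]; linear_combination hj - hl
    · linear_combination hq - C * hd

/-- a bad vector: a nonzero lattice vector of small norm -/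
def Bad (e P R U W C : ℤ) : Prop :=
  Lat e U W C ∧ ¬ (U = 0 ∧ W = 0 ∧ C = 0) ∧ |NN P R U W C| < 216

theorem bad_step {e P R U W C : ℤ} (hc : Cong e P R) (h : Bad e P R U W C) :
    Bad e P R (C - R * W) (U + P * W) W := by
  refine ⟨lat_step hc h.1, ?_, ?_⟩
  · rintro ⟨h1, h2, h3⟩
    apply h.2.1
    subst h3
    simp at h1 h2
    exact ⟨h2, rfl, h1⟩
  · rw [NN_step]
    exact h.2.2

theorem bad_back {e P R U W C : ℤ} (hc : Cong e P R) (h : Bad e P R U W C) :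
    Bad e P R (W - P * C) C (U + R * C) := by
  refine ⟨lat_back hc h.1, ?_, ?_⟩
  · rintro ⟨h1, h2, h3⟩
    apply h.2.1
    subst h2
    simp at h1 h3
    exact ⟨h3, h1, rfl⟩
  · rw [NN_back]
    exact h.2.2

theorem normalize_up {e P R : ℤ} {t σ : ℝ} (hd : Data P R t σ) (hc : Cong e P R) (n : ℕ) :
    ∀ U W C : ℤ, Bad e P R U W C → 144 / t ≤ Qf t σ U W C → Qf t σ U W C < 144 * t ^ n →
      ∃ U' W' C' : ℤ, Bad e P R U' W' C' ∧ 144 / t ≤ Qf t σ U' W' C' ∧ Qf t σ U' W' C' < 144 := by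
  have ht0 : t ≠ 0 := by have := hd.ht; positivity
  have htp : 0 < t := by linarith [hd.ht]
  induction n with
  | zero =>
    intro U W C hb h1 h2
    exact ⟨U, W, C, hb, h1, by simpa using h2⟩
  | succ n ih =>
    intro U W C hb h1 h2
    by_cases h3 : Qf t σ U W C < 144
    · exact ⟨U, W, C, hb, h1, h3⟩
    push Not at h3
    have hs : Qf t σ ((C - R * W : ℤ) : ℝ) ((U + P * W : ℤ) : ℝ) (W : ℝ) = Qf t σ U W C / t := by
      push_cast
      rw [hd.hP, hd.hR]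
      exact Q_step ht0 _ _ _
    refine ih (C - R * W) (U + P * W) W (bad_step hc hb) ?_ ?_
    · rw [hs]
      gcongr
    · rw [hs, div_lt_iff₀ htp]
      calc Qf t σ U W C < 144 * t ^ (n + 1) := h2
        _ = 144 * t ^ n * t := by ring

theorem normalize_down {e P R : ℤ} {t σ : ℝ} (hd : Data P R t σ) (hc : Cong e P R) (n : ℕ) :
    ∀ U W C : ℤ, Bad e P R U W C → Qf t σ U W C < 144 → 144 / t ≤ Qf t σ U W C * t ^ n →
      ∃ U' W' C' : ℤ, Bad e P R U' W' C' ∧ 144 / t ≤ Qf t σ U' W' C' ∧ Qf t σ U' W' C' < 144 := by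
  have ht0 : t ≠ 0 := by have := hd.ht; positivity
  have htp : 0 < t := by linarith [hd.ht]
  induction n with
  | zero =>
    intro U W C hb h1 h2
    exact ⟨U, W, C, hb, by simpa using h2, h1⟩
  | succ n ih =>
    intro U W C hb h1 h2
    by_cases h3 : 144 / t ≤ Qf t σ U W C
    · exact ⟨U, W, C, hb, h3, h1⟩
    push Not at h3
    have hs : Qf t σ ((W - P * C : ℤ) : ℝ) (C : ℝ) ((U + R * C : ℤ) : ℝ) = Qf t σ U W C * t := by
      push_cast
      rw [hd.hP, hd.hR]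
      exact Q_back ht0 _ _ _
    refine ih (W - P * C) C (U + R * C) (bad_back hc hb) ?_ ?_
    · rw [hs]
      rwa [lt_div_iff₀ htp] at h3
    · rw [hs]
      calc 144 / t ≤ Qf t σ U W C * t ^ (n + 1) := h2
        _ = Qf t σ U W C * t * t ^ n := by ring

theorem normalize {e P R : ℤ} {t σ : ℝ} (hd : Data P R t σ) (hc : Cong e P R)
    (h1 : P ≠ R) (h2 : P + R + 2 ≠ 0) {U W C : ℤ} (hb : Bad e P R U W C) :
    ∃ U' W' C' : ℤ, Bad e P R U' W' C' ∧ 144 / t ≤ Qf t σ U' W' C' ∧ Qf t σ U' W' C' < 144 := by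
  have hQ := Q_pos hd h1 h2 hb.2.1
  have htp : 0 < t := by linarith [hd.ht]
  by_cases h3 : Qf t σ U W C < 144
  · obtain ⟨n, hn⟩ := pow_unbounded_of_one_lt (144 / t / Qf t σ U W C) hd.ht
    refine normalize_down hd hc n U W C hb h3 ?_
    rw [div_lt_iff₀ hQ] at hn
    linarith [hn]
  · push Not at h3
    obtain ⟨n, hn⟩ := pow_unbounded_of_one_lt (Qf t σ U W C / 144) hd.ht
    refine normalize_up hd hc n U W C hb ?_ ?_
    · calc 144 / t ≤ 144 := by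
            rw [div_le_iff₀ htp]
            linarith [hd.ht]
        _ ≤ _ := h3
    · rw [div_lt_iff₀ (by norm_num)] at hn
      linarith

end Pool.Agent.MP_51245c_nt
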