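import Pool.Agent.MP_51245c_nt.Analysis

/-!
Bounds for normalised vectors, and the main inequality.
-/

set_option autoImplicit false

namespace Pool.Agent.MP_51245c_nt

/-- `(P - t) ^ 2 * t < 4` -/
theorem P_sub_t {P R : ℤ} {t σ : ℝ} (h : Data P R t σ) : ((P : ℝ) - t) ^ 2 * t < 4 := by
  have htp : 0 < t := by linarith [h.ht]
  have : ((P : ℝ) - t) ^ 2 * t = σ ^ 2 / t := by
    rw [h.hP]
    field_simp
    ring
  rw [this, div_lt_iff₀ htp]
  exact h.hD

theorem k_eq {P R : ℤ} {t σ : ℝ} (h : Data P R t σ) :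
    (4 * (P : ℝ) - R ^ 2) = (4 * t - σ ^ 2) + 2 * (σ / t) - (1 / t) ^ 2 := by
  have ht0 : t ≠ 0 := by have := h.ht; positivity
  rw [h.hP, h.hR]
  field_simp
  ring

theorem small_P {P R : ℤ} {t σ : ℝ} (h : Data P R t σ) (hP : P < 15) :
    -1 < P ∧ -10 < R ∧ R < 10 := by
  have h1 := P_sub_t h
  have ht := h.ht
  have hPr : (P : ℝ) ≤ 14 := by exact_mod_cast (by omega : P ≤ 14)
  have ht2 : t < P + 2 := by
    by_contra hcon
    push Not at hcon
    nlinarith [sq_nonneg ((P : ℝ) - t + 2)]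
  have hσ := h.hD
  have hi : 0 < 1 / t := by positivity
  have hi1 : 1 / t < 1 := by
    rw [div_lt_one (by linarith)]
    exact ht
  have hR := h.hR
  have hs1 : σ < 9 := by nlinarith
  have hs2 : -9 < σ := by nlinarith
  refine ⟨?_, ?_, ?_⟩
  · have : (-1 : ℝ) < P := by linarith
    exact_mod_cast this
  · have : (-10 : ℝ) < R := by linarith
    exact_mod_cast this
  · have : (R : ℝ) < 10 := by linarith
    exact_mod_cast this

/-- the small cases are all exceptional -/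
theorem small_exc {e P R : ℤ} (hc : Cong e P R) (hP1 : -1 < P) (hP2 : P < 15) (hR1 : -10 < R)
    (hR2 : R < 10) (hRP : R < P)
    (hdisc : P ^ 2 * R ^ 2 - 4 * R ^ 3 - 4 * P ^ 3 + 18 * P * R - 27 < 0) :
    (e = 1 ∧ (P, R) ∈ excA) ∨ (e = -1 ∧ (P, R) ∈ excB) := by
  obtain ⟨hc1, hpar⟩ := hc
  have key : ∀ P' ∈ Finset.Icc (0 : ℤ) 14, ∀ R' ∈ Finset.Icc (-9 : ℤ) 9,
      (P' - R') % 2 = 0 → R' < P' →
      P' ^ 2 * R' ^ 2 - 4 * R' ^ 3 - 4 * P' ^ 3 + 18 * P' * R' - 27 < 0 →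
      (P' % 3 = 1 → R' % 3 = 0 → (P', R') ∈ excA) ∧
      (P' % 3 = 0 → R' % 3 = 1 → (P', R') ∈ excB) := by
    decide +kernel
  have := key P (by simp; omega) R (by simp; omega) hpar hRP hdisc
  rcases hc1 with ⟨h1, h2, h3⟩ | ⟨h1, h2, h3⟩
  · exact Or.inl ⟨h1, this.1 h2 h3⟩
  · exact Or.inr ⟨h1, this.2 h2 h3⟩

/-- `k = 4 P - R ^ 2` is at least `4` as soon as it is at least `-1` -/
theorem k_ge {e P R : ℤ} (hc : Cong e P R) (hk : -2 < 4 * P - R ^ 2) : 4 ≤ 4 * P - R ^ 2 := by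
  obtain ⟨hc1, hpar⟩ := hc
  -- mod 3
  have h3 : R ^ 2 % 3 = if R % 3 = 0 then 0 else 1 := by
    have : R % 3 = 0 ∨ R % 3 = 1 ∨ R % 3 = 2 := by omega
    rcases this with h | h | h <;> simp [pow_two, Int.mul_emod, h]
  rcases Int.even_or_odd' R with ⟨r, hr | hr⟩
  · have e1 : R ^ 2 = 4 * (r * r) := by rw [hr]; ring
    rcases hc1 with ⟨-, h1, h2⟩ | ⟨-, h1, h2⟩
    · rw [h2] at h3
      simp at h3
      omega
    · rw [h2] at h3
      simp at h3
      omega
  · obtain ⟨q, hq⟩ := Int.even_mul_succ_self r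
    have e1 : R ^ 2 = 8 * q + 1 := by
      rw [hr]
      linear_combination 4 * hq
    rcases hc1 with ⟨-, h1, h2⟩ | ⟨-, h1, h2⟩
    · rw [h2] at h3
      simp at h3
      omega
    · rw [h2] at h3
      simp at h3
      omega

/-- data for a normalised bad vector, in terms of real numbers -/
theorem norm_data {P R : ℤ} {t σ : ℝ} (h : Data P R t σ) {U W C : ℤ}
    (hN : |NN P R U W C| < 216) (h1 : 144 / t ≤ Qf t σ U W C) (h2 : Qf t σ U W C < 144) :
    ∃ δ c L : ℝ, δ = U + (W / t + C) * σ / 2 ∧ c = C - W / t ∧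
      L = U + W * t + C / t ∧ |δ| < 12 ∧ c ^ 2 * (4 * t - σ ^ 2) < 576 ∧ |L| < 3 / 2 * t ∧
      |L| * (c ^ 2 * (4 * t - σ ^ 2)) < 864 ∧
      W * (t - σ / t + (1 / t) ^ 2) = L - δ + c * (σ / 2 - 1 / t) := by
  have htp : 0 < t := by linarith [h.ht]
  have ht0 : t ≠ 0 := htp.ne'
  have hD := h.hD
  set δ : ℝ := U + (W / t + C) * σ / 2 with hδ
  set c : ℝ := C - W / t with hc
  set L : ℝ := U + W * t + C / t with hL
  have hQ : Qf t σ U W C = δ ^ 2 + c ^ 2 * (4 * t - σ ^ 2) / 4 := by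
    unfold Qf
    rw [hδ, hc]
    ring
  have hNr : |L| * Qf t σ U W C < 216 := by
    have e1 : ((NN P R U W C : ℤ) : ℝ) = L * Qf t σ U W C := by
      rw [NN_cast, h.hP, h.hR, NN_factor ht0]
      rfl
    have e2 : (|((NN P R U W C : ℤ) : ℝ)|) < 216 := by
      have : ((|NN P R U W C| : ℤ) : ℝ) < 216 := by exact_mod_cast hN
      rwa [Int.cast_abs] at this
    rw [e1, abs_mul] at e2
    have e3 : |Qf t σ U W C| = Qf t σ U W C := by
      apply abs_of_nonneg
      have : 0 ≤ 144 / t := by positivity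
      linarith
    rwa [e3] at e2
  have hcD : 0 ≤ c ^ 2 * (4 * t - σ ^ 2) := by
    apply mul_nonneg (sq_nonneg _)
    linarith
  refine ⟨δ, c, L, rfl, rfl, rfl, ?_, ?_, ?_, ?_, ?_⟩
  · rw [hQ] at h2
    apply abs_lt_of_sq_lt_sq _ (by norm_num)
    nlinarith
  · rw [hQ] at h2
    nlinarith [sq_nonneg δ]
  · have hL0 := abs_nonneg L
    have e1 : |L| * (144 / t) < 216 := lt_of_le_of_lt (mul_le_mul_of_nonneg_left h1 hL0) hNr
    rw [mul_div_assoc', div_lt_iff₀ htp] at e1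
    linarith
  · have hL0 := abs_nonneg L
    rw [hQ] at hNr
    have : |L| * (c ^ 2 * (4 * t - σ ^ 2) / 4) ≤ |L| * (δ ^ 2 + c ^ 2 * (4 * t - σ ^ 2) / 4) := by
      apply mul_le_mul_of_nonneg_left _ hL0
      nlinarith [sq_nonneg δ]
    linarith
  · rw [hL, hδ, hc]
    field_simp
    ring

/-- lower bound for the root -/
theorem t_lower {P R : ℤ} {t σ : ℝ} (h : Data P R t σ) (hP : 15 ≤ P) : 14.4 < t := by
  have h1 := P_sub_t h
  have ht := h.ht
  have hPr : (15 : ℝ) ≤ P := by exact_mod_cast hP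
  by_contra hcon
  push Not at hcon
  have h2 : t < 12 := by
    by_contra h3
    push Not at h3
    have : (0.6 : ℝ) ≤ P - t := by linarith
    nlinarith
  have : (3 : ℝ) ≤ P - t := by linarith
  nlinarith

theorem t_lower' {P R : ℤ} {t σ : ℝ} (h : Data P R t σ) (hP : 300 ≤ P) : 299.8 < t := by
  have h1 := P_sub_t h
  have ht := h.ht
  have hPr : (300 : ℝ) ≤ P := by exact_mod_cast hP
  by_contra hcon
  push Not at hcon
  have h2 : t < 101 := by
    by_contra h3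
    push Not at h3
    have : (0.2 : ℝ) ≤ P - t := by linarith
    nlinarith
  have : (3 : ℝ) ≤ P - t := by linarith
  nlinarith

/-- The box: a normalised bad vector lies in a small box, if `15 ≤ P`. -/
theorem box {e P R : ℤ} {t σ : ℝ} (h : Data P R t σ) (hc : Cong e P R) (hP : 15 ≤ P) {U W C : ℤ}
    (hN : |NN P R U W C| < 216) (h1 : 144 / t ≤ Qf t σ U W C) (h2 : Qf t σ U W C < 144) :
    4 ≤ 4 * P - R ^ 2 ∧ |W| ≤ 6 ∧ |C| ≤ 14 ∧ |2 * U + C * R| ≤ 28 ∧
      (C = 0 ∨ (|C| - 1) ^ 2 * (4 * P - R ^ 2 - 2) < 576) := by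
  have htl := t_lower h hP
  have htp : 0 < t := by linarith
  have ht0 : t ≠ 0 := htp.ne'
  obtain ⟨δ, c, L, hδ, hc', hL, bδ, bc, bL, -, hW⟩ := norm_data h hN h1 h2
  have hD := h.hD
  -- i = 1 / t
  have hi0 : 0 < 1 / t := by positivity
  have hi1 : 1 / t < 0.0695 := by
    rw [div_lt_iff₀ htp]
    linarith
  -- r = σ / t
  have hr : |σ / t| < 0.528 := by
    apply abs_lt_of_sq_lt_sq _ (by norm_num)
    rw [div_pow, div_lt_iff₀ (by positivity)]
    nlinarith
  have hr' := abs_lt.mp hr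
  -- k
  have hk := k_eq h
  have hi2 : (1 / t) ^ 2 < 0.0695 ^ 2 := by
    gcongr
  have hk1 : -2 < 4 * P - R ^ 2 := by
    have : (-2 : ℝ) < 4 * (P : ℝ) - R ^ 2 := by
      rw [hk]
      nlinarith
    exact_mod_cast this
  have hk4 := k_ge hc hk1
  have hk4r : (4 : ℝ) ≤ 4 * (P : ℝ) - R ^ 2 := by exact_mod_cast hk4
  have hDk : 4 * (P : ℝ) - R ^ 2 - 1.056 < 4 * t - σ ^ 2 := by
    have : 0 ≤ (1 / t) ^ 2 := by positivity
    linarith
  have hD3 : 2.944 < 4 * t - σ ^ 2 := by linarith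
  -- c
  have hc14 : |c| < 14 := by
    apply abs_lt_of_sq_lt_sq _ (by norm_num)
    nlinarith [sq_nonneg c]
  have hc0 := abs_nonneg c
  -- s = |σ| / 2
  have hs0 : 0 ≤ |σ| / 2 := by positivity
  have hs1 : (|σ| / 2) ^ 2 < t := by
    rw [div_pow, sq_abs]
    linarith
  -- W
  have hWabs : |(W : ℝ)| * (t - 0.528) ≤ 3 / 2 * t + 12 + 14 * (|σ| / 2 + 0.0695) := by
    have e1 : |(W : ℝ)| * (t - 0.528) ≤ |(W : ℝ) * (t - σ / t + (1 / t) ^ 2)| := by
      rw [abs_mul]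
      apply mul_le_mul_of_nonneg_left _ (abs_nonneg _)
      apply le_trans _ (le_abs_self _)
      have : 0 ≤ (1 / t) ^ 2 := by positivity
      linarith
    have e2 : |(W : ℝ) * (t - σ / t + (1 / t) ^ 2)| ≤ |L| + |δ| + |c| * (|σ| / 2 + 1 / t) := by
      rw [hW]
      have a1 : |L - δ + c * (σ / 2 - 1 / t)| ≤ |L - δ| + |c * (σ / 2 - 1 / t)| := abs_add_le _ _
      have a2 : |L - δ| ≤ |L| + |δ| := abs_sub _ _
      have a3 : |c * (σ / 2 - 1 / t)| ≤ |c| * (|σ| / 2 + 1 / t) := by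
        rw [abs_mul]
        apply mul_le_mul_of_nonneg_left _ (abs_nonneg _)
        calc |σ / 2 - 1 / t| ≤ |σ / 2| + |1 / t| := abs_sub _ _
          _ = |σ| / 2 + 1 / t := by
            rw [abs_div, abs_of_pos hi0]
            norm_num
      linarith
    have e3 : |c| * (|σ| / 2 + 1 / t) ≤ 14 * (|σ| / 2 + 0.0695) := by
      apply mul_le_mul hc14.le _ (by positivity) (by norm_num)
      linarith
    linarith
  have hW7 : |(W : ℝ)| < 7 := by
    by_contra hcon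
    push Not at hcon
    have e1 : 7 * (t - 0.528) ≤ |(W : ℝ)| * (t - 0.528) :=
      mul_le_mul_of_nonneg_right hcon (by linarith)
    have e2 : 5.5 * t - 16.67 ≤ 14 * (|σ| / 2) := by linarith
    nlinarith
  have hW6 : |W| ≤ 6 := by
    have : |W| < 7 := by exact_mod_cast hW7
    omega
  have hW6r : |(W : ℝ)| ≤ 6 := by exact_mod_cast hW6
  have hWt : |(W : ℝ) / t| < 0.42 := by
    rw [abs_div, abs_of_pos htp, div_lt_iff₀ htp]
    linarith
  have hCc : |(C : ℝ)| < 14.42 := by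
    have : (C : ℝ) = c + W / t := by rw [hc']; ring
    rw [this]
    calc |c + W / t| ≤ |c| + |(W : ℝ) / t| := abs_add_le _ _
      _ < 14.42 := by linarith
  have hC14 : |C| ≤ 14 := by
    have : |(C : ℝ)| < 15 := by linarith
    have : |C| < 15 := by exact_mod_cast this
    omega
  refine ⟨hk4, hW6, hC14, ?_, ?_⟩
  · have e1 : (2 * (U : ℝ) + C * R) = 2 * δ - W * (σ / t) + C * (1 / t) := by
      rw [hδ, h.hR]
      field_simp
      ring
    have e2 : |(2 * (U : ℝ) + C * R)| < 29 := by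
      rw [e1]
      have a1 : |2 * δ - W * (σ / t) + C * (1 / t)|
          ≤ |2 * δ - W * (σ / t)| + |(C : ℝ) * (1 / t)| := abs_add_le _ _
      have a2 : |2 * δ - W * (σ / t)| ≤ |2 * δ| + |(W : ℝ) * (σ / t)| := abs_sub _ _
      have a3 : |(W : ℝ) * (σ / t)| ≤ 6 * 0.528 := by
        rw [abs_mul]
        exact mul_le_mul hW6r hr.le (abs_nonneg _) (by norm_num)
      have a4 : |(C : ℝ) * (1 / t)| ≤ 14.42 * 0.0695 := by
        rw [abs_mul, abs_of_pos hi0]
        exact mul_le_mul hCc.le hi1.le hi0.le (by norm_num)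
      have a5 : |2 * δ| < 24 := by
        rw [abs_mul]
        norm_num
        linarith
      linarith
    have : |2 * U + C * R| < 29 := by exact_mod_cast e2
    omega
  · by_cases hC : C = 0
    · exact Or.inl hC
    right
    have hC1 : 1 ≤ |C| := Int.one_le_abs hC
    have hC1r : (1 : ℝ) ≤ |(C : ℝ)| := by exact_mod_cast hC1
    have e1 : |(C : ℝ)| - 1 ≤ |c| := by
      have : (C : ℝ) = c + W / t := by rw [hc']; ring
      have a1 : |(C : ℝ)| ≤ |c| + |(W : ℝ) / t| := by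
        rw [this]
        exact abs_add_le _ _
      linarith
    have e2 : (|(C : ℝ)| - 1) ^ 2 ≤ c ^ 2 := by
      rw [← sq_abs c]
      apply pow_le_pow_left₀ _ e1
      linarith
    have e3 : (|(C : ℝ)| - 1) ^ 2 * (4 * (P : ℝ) - R ^ 2 - 2) ≤ c ^ 2 * (4 * t - σ ^ 2) := by
      apply mul_le_mul e2 _ _ (sq_nonneg _)
      · linarith
      · linarith
    have e4 : (|(C : ℝ)| - 1) ^ 2 * (4 * (P : ℝ) - R ^ 2 - 2) < 576 := by linarith
    exact_mod_cast e4

end Pool.Agent.MP_51245c_nt
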