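import Mathlib

/-!
Finite kernel check for the Hessenberg family `H(m,n)` of `MP_51245c_nt`.
-/

set_option autoImplicit false

namespace Pool.Agent.MP_51245c_nt

/-- The norm form of `U + W t + C / t`, where `t` is a root of `x ^ 3 - P x ^ 2 + R x - 1`. -/
def NN {A : Type} [CommRing A] (P R U W C : A) : A :=
  U ^ 3 + P * U ^ 2 * W + R * U ^ 2 * C + R * U * W ^ 2 + P * U * C ^ 2
    + (P * R - 3) * U * W * C + W ^ 3 + C ^ 3
    + (R ^ 2 - 2 * P) * W ^ 2 * C + (P ^ 2 - 2 * R) * W * C ^ 2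

/-- test of a cubic `U ^ 3 + a U ^ 2 + b U + c` at the point `U`: is its absolute value at least
`216`? -/
def tst (a b c U : ℤ) : Bool :=
  Nat.ble 216 (Int.natAbs (((U + a) * U + b) * U + c))

/-- quadratic coefficient of the norm form as a polynomial in `U` -/
def coefA (P R W C : ℤ) : ℤ := P * W + R * C
/-- linear coefficient of the norm form as a polynomial in `U` -/
def coefB (P R W C : ℤ) : ℤ := R * W * W + P * C * C + (P * R - 3) * W * C
/-- constant coefficient of the norm form as a polynomial in `U` -/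
def coefC (P R W C : ℤ) : ℤ :=
  W * W * W + C * C * C + (R * R - 2 * P) * W * W * C + (P * P - 2 * R) * W * C * C

/-- test five consecutive values of `u` -/
def chk5 (a b c U : ℤ) : Bool :=
  tst a b c U && (tst a b c (U + 6) && (tst a b c (U + 12) &&
    (tst a b c (U + 18) && tst a b c (U + 24))))

/-- all tests for given `(e, P, R, C, w)` -/
def checkCW (e P R C w : ℤ) : Bool :=
  chk5 (coefA P R (3 * w - C) C) (coefB P R (3 * w - C) C) (coefC P R (3 * w - C) C)
    (2 * e * C + 3 * w + 6 * (-((28 + (4 * e * C + 6 * w + C * R)) / 12)))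

/-- all tests for given `(e, P, R)` -/
def checkPR (e P R : ℤ) : Bool :=
  (List.range 15).all fun C =>
    Nat.ble 576 ((C - 1) * (C - 1) * (4 * P - R * R - 2).toNat) ||
    (List.range 9).all fun w =>
      Nat.ble 7 (3 * ((w : ℤ) - 2) - (C : ℤ)).natAbs ||
      (Nat.beq C 0 && Nat.ble w 2) || checkCW e P R (C : ℤ) ((w : ℤ) - 2)

/-- the exceptional parameters with `T > S` (as pairs `(T,S)`) -/
def excA : List (ℤ × ℤ) :=
  [(4,0),(7,-3),(7,3),(10,-6),(10,0),(10,6),(13,-3),(13,3),(16,-6),(16,6),(25,9),(82,-18),(82,18)]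

/-- the exceptional parameters with `S > T` (as pairs `(S,T)`) -/
def excB : List (ℤ × ℤ) :=
  [(3,1),(6,-2),(6,4),(9,-5),(9,1),(12,-2),(12,4),(15,-5),(15,7),(18,-8),(24,-8),(33,-11),
   (66,16),(102,-20)]

/-- membership test -/
def memL (L : List (ℤ × ℤ)) (P R : ℤ) : Bool :=
  L.any fun x => (x.1 == P) && (x.2 == R)

/-- one parameter test, or nothing to test -/
def checkOne (e : ℤ) (L : List (ℤ × ℤ)) (P R : ℤ) : Bool :=
  !(Int.emod (P - R) 2 == 0) || Nat.ble (4 * P - R * R).toNat 3 || memL L P R || checkPR e P R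

/-- full test, family A -/
def checkA : Bool :=
  (List.range 95).all fun n => (List.range 25).all fun b =>
    checkOne 1 excA (3 * ((n : ℤ) + 5) + 1) (3 * ((b : ℤ) - 12))

/-- full test, family B -/
def checkB : Bool :=
  (List.range 95).all fun n => (List.range 25).all fun b =>
    checkOne (-1) excB (3 * ((n : ℤ) + 5)) (3 * ((b : ℤ) - 12) + 1)

set_option maxRecDepth 100000 in
theorem checkA_true : checkA = true := by decide +kernel

set_option maxRecDepth 100000 in
theorem checkB_true : checkB = true := by decide +kernel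

theorem tst_spec {a b c U : ℤ} (h : tst a b c U = true) :
    216 ≤ |((U + a) * U + b) * U + c| := by
  unfold tst at h
  have h1 := Nat.le_of_ble_eq_true h
  rw [Int.abs_eq_natAbs]
  exact_mod_cast h1

theorem NN_eq (P R U W C : ℤ) :
    NN P R U W C = ((U + coefA P R W C) * U + coefB P R W C) * U + coefC P R W C := by
  unfold NN coefA coefB coefC
  ring

theorem chk5_spec {P R W C U : ℤ}
    (h : chk5 (coefA P R W C) (coefB P R W C) (coefC P R W C) U = true) :
    ∀ j : ℤ, 0 ≤ j → j ≤ 4 → 216 ≤ |NN P R (U + 6 * j) W C| := by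
  intro j hj0 hj4
  unfold chk5 at h
  simp only [Bool.and_eq_true] at h
  obtain ⟨h0, h1, h2, h3, h4⟩ := h
  rw [NN_eq]
  have hj : j = 0 ∨ j = 1 ∨ j = 2 ∨ j = 3 ∨ j = 4 := by omega
  rcases hj with rfl | rfl | rfl | rfl | rfl
  · simpa using tst_spec h0
  · simpa using tst_spec h1
  · simpa using tst_spec h2
  · simpa using tst_spec h3
  · simpa using tst_spec h4

theorem checkCW_spec {e P R C w : ℤ} (h : checkCW e P R C w = true) (u : ℤ)
    (hu1 : -28 ≤ 12 * u + (4 * e * C + 6 * w + C * R))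
    (hu2 : 12 * u + (4 * e * C + 6 * w + C * R) ≤ 28) :
    216 ≤ |NN P R (2 * e * C + 3 * w + 6 * u) (3 * w - C) C| := by
  unfold checkCW at h
  generalize hX : 4 * e * C + 6 * w + C * R = X at *
  have := chk5_spec h (u - (-((28 + X) / 12))) (by omega) (by omega)
  have e1 : 2 * e * C + 3 * w + 6 * -((28 + X) / 12) + 6 * (u - -((28 + X) / 12))
      = 2 * e * C + 3 * w + 6 * u := by ring
  rwa [e1] at this

theorem checkPR_spec {e P R : ℤ} (h : checkPR e P R = true) (C w u : ℤ)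
    (hC0 : 0 ≤ C) (hC14 : C ≤ 14)
    (hk : C = 0 ∨ (C - 1) ^ 2 * (4 * P - R ^ 2 - 2) < 576)
    (hk0 : 0 ≤ 4 * P - R ^ 2 - 2)
    (hw1 : -6 ≤ 3 * w - C) (hw2 : 3 * w - C ≤ 6) (hw0 : C = 0 → 0 < w)
    (hu1 : -28 ≤ 12 * u + (4 * e * C + 6 * w + C * R))
    (hu2 : 12 * u + (4 * e * C + 6 * w + C * R) ≤ 28) :
    216 ≤ |NN P R (2 * e * C + 3 * w + 6 * u) (3 * w - C) C| := by
  unfold checkPR at h
  rw [List.all_eq_true] at h
  obtain ⟨c, rfl⟩ := Int.eq_ofNat_of_zero_le hC0
  have h1 := h c (by simp; omega)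
  rw [Bool.or_eq_true] at h1
  rcases h1 with h1 | h1
  · exfalso
    have h2 := Nat.le_of_ble_eq_true h1
    rcases hk with hk | hk
    · have : c = 0 := by omega
      subst this
      simp at h2
    · rcases Nat.eq_zero_or_pos c with hc | hc
      · subst hc
        simp at h2
      · obtain ⟨d, rfl⟩ : ∃ d, c = d + 1 := ⟨c - 1, by omega⟩
        have e1 : ((4 * P - R * R - 2).toNat : ℤ) = 4 * P - R ^ 2 - 2 := by
          rw [Int.toNat_of_nonneg (by nlinarith)]
          ring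
        have e2 : (576 : ℤ) ≤ ((d + 1 - 1) * (d + 1 - 1) : ℕ) * (4 * P - R * R - 2).toNat := by
          exact_mod_cast h2
        rw [e1] at e2
        simp only [Nat.add_sub_cancel] at e2
        push_cast at e2 hk
        have e3 : ((d : ℤ) + 1 - 1) ^ 2 = d * d := by ring
        rw [e3] at hk
        omega
  · rw [List.all_eq_true] at h1
    have hw' : 0 ≤ w + 2 := by omega
    obtain ⟨v, hv⟩ := Int.eq_ofNat_of_zero_le hw'
    have h2 := h1 v (by simp; omega)
    have hwv : w = (v : ℤ) - 2 := by omega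
    rw [← hwv] at h2
    rw [Bool.or_eq_true, Bool.or_eq_true] at h2
    rcases h2 with (h2 | h2) | h2
    · exfalso
      have := Nat.le_of_ble_eq_true h2
      omega
    · exfalso
      rw [Bool.and_eq_true] at h2
      obtain ⟨h3, h4⟩ := h2
      have h5 := Nat.eq_of_beq_eq_true h3
      have h6 := Nat.le_of_ble_eq_true h4
      have := hw0 (by omega)
      omega
    · exact checkCW_spec h2 u hu1 hu2

theorem memL_spec {L : List (ℤ × ℤ)} {P R : ℤ} (h : memL L P R = true) : (P, R) ∈ L := by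
  unfold memL at h
  rw [List.any_eq_true] at h
  obtain ⟨x, hx, hx2⟩ := h
  rw [Bool.and_eq_true] at hx2
  obtain ⟨h1, h2⟩ := hx2
  have h1' : x.1 = P := by simpa using h1
  have h2' : x.2 = R := by simpa using h2
  rw [← h1', ← h2']
  exact hx

theorem checkOne_spec {e : ℤ} {L : List (ℤ × ℤ)} {P R : ℤ} (h : checkOne e L P R = true)
    (hpar : (P - R) % 2 = 0) (hk : 4 ≤ 4 * P - R ^ 2) (hL : (P, R) ∉ L) :
    checkPR e P R = true := by
  unfold checkOne at h
  rw [Bool.or_eq_true, Bool.or_eq_true, Bool.or_eq_true] at h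
  rcases h with ((h | h) | h) | h
  · exfalso
    have : Int.emod (P - R) 2 = 0 := hpar
    rw [this] at h
    simp at h
  · exfalso
    have h1 := Nat.le_of_ble_eq_true h
    have h2 : (4 * P - R * R).toNat ≤ 3 := h1
    have h3 : 4 * P - R * R = 4 * P - R ^ 2 := by ring
    rw [h3] at h2
    omega
  · exact absurd (memL_spec h) hL
  · exact h

theorem abs_le_of_sq {P R : ℤ} (hP : P < 300) (hk : 4 ≤ 4 * P - R ^ 2) : -35 < R ∧ R < 35 := by
  constructor <;> nlinarith

theorem checkA_spec {P R : ℤ} (hP1 : 15 ≤ P) (hP2 : P < 300) (hP : P % 3 = 1) (hR : R % 3 = 0)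
    (hpar : (P - R) % 2 = 0) (hk : 4 ≤ 4 * P - R ^ 2) (hL : (P, R) ∉ excA) :
    checkPR 1 P R = true := by
  have hb := abs_le_of_sq hP2 hk
  have h := checkA_true
  unfold checkA at h
  rw [List.all_eq_true] at h
  obtain ⟨n, hn⟩ := Int.eq_ofNat_of_zero_le (show 0 ≤ P / 3 - 5 by omega)
  obtain ⟨b, hb'⟩ := Int.eq_ofNat_of_zero_le (show 0 ≤ R / 3 + 12 by omega)
  have h1 := h n (by simp; omega)
  rw [List.all_eq_true] at h1
  have h2 := h1 b (by simp; omega)
  have e1 : 3 * ((n : ℤ) + 5) + 1 = P := by omega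
  have e2 : 3 * ((b : ℤ) - 12) = R := by omega
  rw [e1, e2] at h2
  exact checkOne_spec h2 hpar hk hL

theorem checkB_spec {P R : ℤ} (hP1 : 15 ≤ P) (hP2 : P < 300) (hP : P % 3 = 0) (hR : R % 3 = 1)
    (hpar : (P - R) % 2 = 0) (hk : 4 ≤ 4 * P - R ^ 2) (hL : (P, R) ∉ excB) :
    checkPR (-1) P R = true := by
  have hb := abs_le_of_sq hP2 hk
  have h := checkB_true
  unfold checkB at h
  rw [List.all_eq_true] at h
  obtain ⟨n, hn⟩ := Int.eq_ofNat_of_zero_le (show 0 ≤ P / 3 - 5 by omega)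
  obtain ⟨b, hb'⟩ := Int.eq_ofNat_of_zero_le (show 0 ≤ R / 3 + 12 by omega)
  have h1 := h n (by simp; omega)
  rw [List.all_eq_true] at h1
  have h2 := h1 b (by simp; omega)
  have e1 : 3 * ((n : ℤ) + 5) = P := by omega
  have e2 : 3 * ((b : ℤ) - 12) + 1 = R := by omega
  rw [e1, e2] at h2
  exact checkOne_spec h2 hpar hk hL

/-- the finite check, both families -/
theorem finite_check {e P R : ℤ}
    (hcase : (e = 1 ∧ P % 3 = 1 ∧ R % 3 = 0 ∧ (P, R) ∉ excA) ∨
      (e = -1 ∧ P % 3 = 0 ∧ R % 3 = 1 ∧ (P, R) ∉ excB))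
    (hP1 : 15 ≤ P) (hP2 : P < 300)
    (hpar : (P - R) % 2 = 0) (hk : 4 ≤ 4 * P - R ^ 2) (C w u : ℤ)
    (hC0 : 0 ≤ C) (hC14 : C ≤ 14)
    (hk' : C = 0 ∨ (C - 1) ^ 2 * (4 * P - R ^ 2 - 2) < 576)
    (hw1 : -6 ≤ 3 * w - C) (hw2 : 3 * w - C ≤ 6) (hw0 : C = 0 → 0 < w)
    (hu1 : -28 ≤ 12 * u + (4 * e * C + 6 * w + C * R))
    (hu2 : 12 * u + (4 * e * C + 6 * w + C * R) ≤ 28) :
    216 ≤ |NN P R (2 * e * C + 3 * w + 6 * u) (3 * w - C) C| := by
  have h : checkPR e P R = true := by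
    rcases hcase with ⟨rfl, h1, h2, h3⟩ | ⟨rfl, h1, h2, h3⟩
    · exact checkA_spec hP1 hP2 h1 h2 hpar hk h3
    · exact checkB_spec hP1 hP2 h1 h2 hpar hk h3
  exact checkPR_spec h C w u hC0 hC14 hk' (by omega) hw1 hw2 hw0 hu1 hu2

end Pool.Agent.MP_51245c_nt
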