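import Pool.Agent.MP_51245c_nt.Box

/-!
The case of large parameters, and the main inequality.
-/

set_option autoImplicit false

namespace Pool.Agent.MP_51245c_nt

theorem largeA {t σ c L δ : ℝ} (htl : 299.8 < t) (hi0 : 0 < 1 / t) (hi1 : 1 / t < 0.0034)
    (bδ : |δ| < 12) (hc13 : |c| < 12.37) (hc3 : 3 ≤ |c|)
    (bc : c ^ 2 * (4 * t - σ ^ 2) < 576)
    (hLb : |L| * (|c| ^ 2 * 3.768) ≤ 864) (e2 : c * (σ / 2) = δ - L + c * (1 / t)) : False := by
  have hL0 := abs_nonneg L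
  have hc0 := abs_nonneg c
  have hs0 : 0 ≤ |σ| / 2 := by positivity
  have hLb2 : |L| < 25.5 := by
    by_contra hcon
    push Not at hcon
    have h9 : (3 : ℝ) ^ 2 ≤ |c| ^ 2 := pow_le_pow_left₀ (by norm_num) hc3 2
    have : 25.5 * (3 ^ 2 * 3.768) ≤ |L| * (|c| ^ 2 * 3.768) := by
      apply mul_le_mul hcon _ (by norm_num) hL0
      apply mul_le_mul_of_nonneg_right h9 (by norm_num)
    linarith
  have e1 : |c| * (|σ| / 2) ≤ |L| + |δ| + |c| * (1 / t) := by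
    have e3 : |c| * (|σ| / 2) = |c * (σ / 2)| := by
      rw [abs_mul, abs_div, abs_two]
    rw [e3, e2]
    have a1 : |δ - L + c * (1 / t)| ≤ |δ - L| + |c * (1 / t)| := abs_add_le _ _
    have a2 : |δ - L| ≤ |δ| + |L| := abs_sub _ _
    have a3 : |c * (1 / t)| = |c| * (1 / t) := by
      rw [abs_mul, abs_of_pos hi0]
    linarith
  have e2 : |c| * (1 / t) ≤ 12.37 * 0.0034 :=
    mul_le_mul hc13.le hi1.le hi0.le (by norm_num)
  have e3 : 3 * (|σ| / 2) ≤ |c| * (|σ| / 2) :=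
    mul_le_mul_of_nonneg_right hc3 hs0
  have e4 : |σ| / 2 < 12.6 := by linarith
  have e6 : (3 : ℝ) ^ 2 ≤ c ^ 2 := by
    rw [← sq_abs c]
    exact pow_le_pow_left₀ (by norm_num) hc3 2
  have e5 : 4 * t - σ ^ 2 < 64 := by
    by_contra hcon
    push Not at hcon
    have : (3 : ℝ) ^ 2 * 64 ≤ c ^ 2 * (4 * t - σ ^ 2) :=
      mul_le_mul e6 hcon (by norm_num) (sq_nonneg _)
    linarith
  have e7 : (|σ| / 2) ^ 2 < 12.6 ^ 2 := by
    apply pow_lt_pow_left₀ e4 hs0 (by norm_num)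
  rw [div_pow, sq_abs] at e7
  linarith

theorem largeB {t σ c L : ℝ} (htl : 299.8 < t) (hσ : σ ^ 2 < 4 * t)
    (hc13 : |c| < 12.37) (hcl : 0.993 < |c|)
    (hLb : |L| * (|c| ^ 2 * 3.768) ≤ 864)
    (hW : t - 0.1156 ≤ |L| + 12 + |c| * (|σ| / 2 + 0.0034))
    (hcc : |c| < 1.007 ∨ 1.99 < |c|) : False := by
  have hL0 := abs_nonneg L
  have hc0 := abs_nonneg c
  have hs0 : 0 ≤ |σ| / 2 := by positivity
  have hs1 : (|σ| / 2) ^ 2 < t := by
    rw [div_pow, sq_abs]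
    linarith
  rcases hcc with hcu | hcl2
  · have hLb2 : |L| < 232.6 := by
      by_contra hcon
      push Not at hcon
      have h9 : (0.993 : ℝ) ^ 2 ≤ |c| ^ 2 := pow_le_pow_left₀ (by norm_num) hcl.le 2
      have : 232.6 * (0.993 ^ 2 * 3.768) ≤ |L| * (|c| ^ 2 * 3.768) := by
        apply mul_le_mul hcon _ (by norm_num) hL0
        apply mul_le_mul_of_nonneg_right h9 (by norm_num)
      linarith
    have e3 : |c| * (|σ| / 2 + 0.0034) ≤ 1.007 * (|σ| / 2 + 0.0034) := by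
      apply mul_le_mul_of_nonneg_right hcu.le (by positivity)
    have e2 : t - 244.8 ≤ 1.007 * (|σ| / 2) := by linarith
    have e4 : (t - 244.8) ^ 2 ≤ (1.007 * (|σ| / 2)) ^ 2 :=
      pow_le_pow_left₀ (by linarith) e2 2
    rw [mul_pow] at e4
    have e5 : (t - 244.8) ^ 2 < 1.007 ^ 2 * t := by linarith
    nlinarith
  · have hLb2 : |L| < 58 := by
      by_contra hcon
      push Not at hcon
      have h9 : (1.99 : ℝ) ^ 2 ≤ |c| ^ 2 := pow_le_pow_left₀ (by norm_num) hcl2.le 2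
      have : 58 * (1.99 ^ 2 * 3.768) ≤ |L| * (|c| ^ 2 * 3.768) := by
        apply mul_le_mul hcon _ (by norm_num) hL0
        apply mul_le_mul_of_nonneg_right h9 (by norm_num)
      linarith
    have e3 : |c| * (|σ| / 2 + 0.0034) ≤ 12.37 * (|σ| / 2 + 0.0034) := by
      apply mul_le_mul_of_nonneg_right hc13.le (by positivity)
    have e2 : t - 70.2 ≤ 12.37 * (|σ| / 2) := by linarith
    have e4 : (t - 70.2) ^ 2 ≤ (12.37 * (|σ| / 2)) ^ 2 :=
      pow_le_pow_left₀ (by linarith) e2 2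
    rw [mul_pow] at e4
    have e5 : (t - 70.2) ^ 2 < 12.37 ^ 2 * t := by linarith
    nlinarith

theorem largeW {t σ c L W : ℝ} (htl : 299.8 < t) (hσ : σ ^ 2 < 4 * t)
    (hc13 : |c| < 12.37) (bL : |L| < 3 / 2 * t)
    (hWgen : |W| * (t - 0.1156) ≤ |L| + 12 + |c| * (|σ| / 2 + 0.0034)) : |W| < 3 := by
  have hs0 : 0 ≤ |σ| / 2 := by positivity
  have hs1 : (|σ| / 2) ^ 2 < t := by
    rw [div_pow, sq_abs]
    linarith
  by_contra hcon
  push Not at hcon
  have e1 : 3 * (t - 0.1156) ≤ |(W : ℝ)| * (t - 0.1156) :=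
    mul_le_mul_of_nonneg_right hcon (by linarith)
  have e3 : |c| * (|σ| / 2 + 0.0034) ≤ 12.37 * (|σ| / 2 + 0.0034) := by
    apply mul_le_mul_of_nonneg_right hc13.le (by positivity)
  have e2 : 1.5 * t - 12.4 ≤ 12.37 * (|σ| / 2) := by linarith
  have e4 : (1.5 * t - 12.4) ^ 2 ≤ (12.37 * (|σ| / 2)) ^ 2 :=
    pow_le_pow_left₀ (by linarith) e2 2
  rw [mul_pow] at e4
  have e5 : (1.5 * t - 12.4) ^ 2 < 12.37 ^ 2 * t := by linarith
  nlinarith

/-- no normalised bad vector for `P ≥ 300` -/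
theorem large {e P R : ℤ} {t σ : ℝ} (h : Data P R t σ) (hc : Cong e P R) (hP : 300 ≤ P)
    {U W C : ℤ} (hb : Bad e P R U W C)
    (h1 : 144 / t ≤ Qf t σ U W C) (h2 : Qf t σ U W C < 144) : False := by
  obtain ⟨hlat, hne, hN⟩ := hb
  have htl := t_lower' h hP
  have htp : 0 < t := by linarith
  have ht0 : t ≠ 0 := htp.ne'
  obtain ⟨hk4, -, -, -, -⟩ := box h hc (by omega) hN h1 h2
  obtain ⟨δ, c, L, hδ, hc', hL, bδ, bc, bL, bLc, hW⟩ := norm_data h hN h1 h2
  have hD := h.hD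
  have hi0 : 0 < 1 / t := by positivity
  have hi1 : 1 / t < 0.0034 := by
    rw [div_lt_iff₀ htp]
    linarith
  have hr : |σ / t| < 0.1156 := by
    apply abs_lt_of_sq_lt_sq _ (by norm_num)
    rw [div_pow, div_lt_iff₀ (by positivity)]
    nlinarith
  have hr' := abs_lt.mp hr
  have hk := k_eq h
  have hk4r : (4 : ℝ) ≤ 4 * (P : ℝ) - R ^ 2 := by exact_mod_cast hk4
  have hD3 : 3.768 < 4 * t - σ ^ 2 := by
    have : 0 ≤ (1 / t) ^ 2 := by positivity
    linarith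
  have hc13 : |c| < 12.37 := by
    apply abs_lt_of_sq_lt_sq _ (by norm_num)
    nlinarith [sq_nonneg c]
  have hc0 := abs_nonneg c
  have hWgen : |(W : ℝ)| * (t - 0.1156) ≤ |L| + 12 + |c| * (|σ| / 2 + 0.0034) := by
    have e1 : |(W : ℝ)| * (t - 0.1156) ≤ |(W : ℝ) * (t - σ / t + (1 / t) ^ 2)| := by
      rw [abs_mul]
      apply mul_le_mul_of_nonneg_left _ (abs_nonneg _)
      apply le_trans _ (le_abs_self _)
      have : 0 ≤ (1 / t) ^ 2 := by positivity
      linarith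
    have e2 : |(W : ℝ) * (t - σ / t + (1 / t) ^ 2)| ≤ |L| + |δ| + |c| * (|σ| / 2 + 1 / t) := by
      rw [hW]
      have a1 : |L - δ + c * (σ / 2 - 1 / t)| ≤ |L - δ| + |c * (σ / 2 - 1 / t)| := abs_add_le _ _
      have a2 : |L - δ| ≤ |L| + |δ| := abs_sub _ _
      have a3 : |c * (σ / 2 - 1 / t)| ≤ |c| * (|σ| / 2 + 1 / t) := by
        rw [abs_mul]
        apply mul_le_mul_of_nonneg_left _ (abs_nonneg _)
        calc |σ / 2 - 1 / t| ≤ |σ / 2| + |1 / t| := abs_sub _ _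
          _ = |σ| / 2 + 1 / t := by
            rw [abs_div, abs_of_pos hi0, abs_two]
      linarith
    have e3 : |c| * (|σ| / 2 + 1 / t) ≤ |c| * (|σ| / 2 + 0.0034) := by
      apply mul_le_mul_of_nonneg_left _ (abs_nonneg _)
      linarith
    linarith
  have hW3 : |(W : ℝ)| < 3 := largeW htl hD hc13 bL hWgen
  have hW2 : |W| ≤ 2 := by
    have : |W| < 3 := by exact_mod_cast hW3
    omega
  have hW2r : |(W : ℝ)| ≤ 2 := by exact_mod_cast hW2
  have hWt : |(W : ℝ) / t| < 0.0068 := by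
    rw [abs_div, abs_of_pos htp, div_lt_iff₀ htp]
    linarith
  have hCeq : (C : ℝ) = c + W / t := by rw [hc']; ring
  have hCle : |(C : ℝ)| ≤ |c| + |(W : ℝ) / t| := by
    rw [hCeq]
    exact abs_add_le _ _
  have hcle : |c| ≤ |(C : ℝ)| + |(W : ℝ) / t| := by
    rw [hc']
    exact abs_sub _ _
  obtain ⟨hl1, hl2, hl3⟩ := hlat
  by_cases hC : C = 0
  · -- C = 0
    subst hC
    have hW0 : W = 0 := by
      rw [abs_le] at hW2
      omega
    subst hW0
    have hU : 6 ∣ U := by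
      have : 3 ∣ U := by simpa using hl2
      have : 2 ∣ U := by simpa using hl3
      omega
    have hU0 : U ≠ 0 := by
      rintro rfl
      exact hne ⟨rfl, rfl, rfl⟩
    have hU6 : 6 ≤ |U| := by
      rcases abs_cases U with h | h <;> omega
    have e1 : NN P R U 0 0 = U ^ 3 := by
      unfold NN
      ring
    rw [e1, abs_pow] at hN
    have : (6 : ℤ) ^ 3 ≤ |U| ^ 3 := pow_le_pow_left₀ (by norm_num) hU6 3
    norm_num at this
    omega
  -- C ≠ 0
  have hC1 : 1 ≤ |C| := Int.one_le_abs hC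
  have hC1r : (1 : ℝ) ≤ |(C : ℝ)| := by exact_mod_cast hC1
  have hcl : 0.993 < |c| := by linarith
  have hL0 := abs_nonneg L
  -- bound on L
  have hLb : |L| * (c ^ 2 * 3.768) ≤ 864 := by
    have : |L| * (c ^ 2 * 3.768) ≤ |L| * (c ^ 2 * (4 * t - σ ^ 2)) := by
      apply mul_le_mul_of_nonneg_left _ hL0
      apply mul_le_mul_of_nonneg_left hD3.le (sq_nonneg _)
    linarith
  rw [← sq_abs c] at hLb
  by_cases hW0 : W = 0
  · -- W = 0
    subst hW0
    have hC3 : 3 ∣ C := by simpa using hl1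
    have hC3' : 3 ≤ |C| := by
      rcases abs_cases C with h | h <;> omega
    have hC3r : (3 : ℝ) ≤ |(C : ℝ)| := by exact_mod_cast hC3'
    have hcC : c = C := by
      rw [hc']
      simp
    have hc3 : 3 ≤ |c| := by
      rw [hcC]
      exact hC3r
    refine largeA htl hi0 hi1 bδ hc13 hc3 bc hLb ?_
    simp only [Int.cast_zero, zero_mul] at hW
    linarith
  · -- W ≠ 0
    have hW1 : 1 ≤ |W| := Int.one_le_abs hW0
    have hW1r : (1 : ℝ) ≤ |(W : ℝ)| := by exact_mod_cast hW1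
    have e1 : 1 * (t - 0.1156) ≤ |(W : ℝ)| * (t - 0.1156) :=
      mul_le_mul_of_nonneg_right hW1r (by linarith)
    refine largeB htl hD hc13 hcl hLb (by linarith) ?_
    by_cases hC2 : |C| = 1
    · left
      have hC2r : |(C : ℝ)| = 1 := by exact_mod_cast hC2
      linarith
    · right
      have hC2' : 2 ≤ |C| := by omega
      have hC2r : (2 : ℝ) ≤ |(C : ℝ)| := by exact_mod_cast hC2'
      linarith

theorem NN_neg {A : Type} [CommRing A] (P R U W C : A) :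
    NN P R (-U) (-W) (-C) = - NN P R U W C := by
  unfold NN
  ring

/-- no bad vector in the box, first version with a sign condition -/
theorem box_pos {e P R : ℤ} (hc : Cong e P R) (hP1 : 15 ≤ P) (hP2 : P < 300)
    (hexc : ¬ ((e = 1 ∧ (P, R) ∈ excA) ∨ (e = -1 ∧ (P, R) ∈ excB))) {U W C : ℤ}
    (hb : Bad e P R U W C) (b1 : 4 ≤ 4 * P - R ^ 2) (b2 : |W| ≤ 6) (b3 : |C| ≤ 14)
    (b4 : |2 * U + C * R| ≤ 28) (b5 : C = 0 ∨ (|C| - 1) ^ 2 * (4 * P - R ^ 2 - 2) < 576)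
    (hpos : 0 < C ∨ (C = 0 ∧ 0 < W) ∨ (C = 0 ∧ W = 0)) : False := by
  obtain ⟨⟨hl1, hl2, hl3⟩, hne, hN⟩ := hb
  have hcase : (e = 1 ∧ P % 3 = 1 ∧ R % 3 = 0 ∧ (P, R) ∉ excA) ∨
      (e = -1 ∧ P % 3 = 0 ∧ R % 3 = 1 ∧ (P, R) ∉ excB) := by
    rcases hc.1 with ⟨h1, h2, h3⟩ | ⟨h1, h2, h3⟩
    · exact Or.inl ⟨h1, h2, h3, fun h4 => hexc (Or.inl ⟨h1, h4⟩)⟩
    · exact Or.inr ⟨h1, h2, h3, fun h4 => hexc (Or.inr ⟨h1, h4⟩)⟩
  have hC0 : 0 ≤ C := by omega
  rw [abs_of_nonneg hC0] at b3 b5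
  -- the case C = W = 0
  by_cases hCW : C = 0 ∧ W = 0
  · obtain ⟨rfl, rfl⟩ := hCW
    have hU : 6 ∣ U := by
      have : 3 ∣ U := by simpa using hl2
      have : 2 ∣ U := by simpa using hl3
      omega
    have hU0 : U ≠ 0 := by
      rintro rfl
      exact hne ⟨rfl, rfl, rfl⟩
    have hU6 : 6 ≤ |U| := by
      rcases abs_cases U with h | h <;> omega
    have e1 : NN P R U 0 0 = U ^ 3 := by
      unfold NN
      ring
    rw [e1, abs_pow] at hN
    have : (6 : ℤ) ^ 3 ≤ |U| ^ 3 := pow_le_pow_left₀ (by norm_num) hU6 3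
    norm_num at this
    omega
  obtain ⟨w, hw⟩ := hl1
  obtain ⟨u, hu⟩ : ∃ u, U = 2 * e * C + 3 * w + 6 * u := by
    rcases hcase with ⟨rfl, -⟩ | ⟨rfl, -⟩
    · refine ⟨(U - 2 * C - 3 * w) / 6, ?_⟩
      omega
    · refine ⟨(U + 2 * C - 3 * w) / 6, ?_⟩
      omega
  have hW : W = 3 * w - C := by linarith
  have e1 : 2 * U + C * R = 12 * u + (4 * e * C + 6 * w + C * R) := by
    rw [hu]
    ring
  rw [e1, abs_le] at b4
  rw [abs_le, hW] at b2
  have := finite_check hcase hP1 hP2 hc.2 b1 C w u hC0 b3 b5 b2.1 b2.2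
    (fun h => by omega) b4.1 b4.2
  rw [hu, hW] at hN
  omega

/-- The main inequality: there are no bad vectors outside the exceptional lists. -/
theorem no_bad {e P R : ℤ} (hc : Cong e P R) (hRP : R < P) (h2 : P + R + 2 ≠ 0)
    (hdisc : P ^ 2 * R ^ 2 - 4 * R ^ 3 - 4 * P ^ 3 + 18 * P * R - 27 < 0)
    (hexc : ¬ ((e = 1 ∧ (P, R) ∈ excA) ∨ (e = -1 ∧ (P, R) ∈ excB))) (U W C : ℤ) :
    ¬ Bad e P R U W C := by
  intro hb0
  obtain ⟨t, σ, h⟩ := exists_data hRP hdisc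
  obtain ⟨U', W', C', hb, h1, h2⟩ := normalize h hc (by omega) h2 hb0
  by_cases hP : P < 15
  · obtain ⟨a1, a2, a3⟩ := small_P h hP
    exact hexc (small_exc hc a1 hP a2 a3 hRP hdisc)
  push Not at hP
  by_cases hP3 : P < 300
  swap
  · push Not at hP3
    exact large h hc hP3 hb h1 h2
  obtain ⟨b1, b2, b3, b4, b5⟩ := box h hc hP hb.2.2 h1 h2
  by_cases hpos : 0 < C' ∨ (C' = 0 ∧ 0 < W') ∨ (C' = 0 ∧ W' = 0)
  · exact box_pos hc hP hP3 hexc hb b1 b2 b3 b4 b5 hpos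
  · have hb' : Bad e P R (-U') (-W') (-C') := by
      obtain ⟨⟨hl1, hl2, hl3⟩, hne, hN⟩ := hb
      refine ⟨⟨?_, ?_, ?_⟩, ?_, ?_⟩
      · have : -W' + -C' = -(W' + C') := by ring
        rw [this]
        exact (dvd_neg).mpr hl1
      · have : -U' + e * -C' = -(U' + e * C') := by ring
        rw [this]
        exact (dvd_neg).mpr hl2
      · have : -U' + -W' + -C' = -(U' + W' + C') := by ring
        rw [this]
        exact (dvd_neg).mpr hl3
      · rintro ⟨h3, h4, h5⟩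
        exact hne ⟨by omega, by omega, by omega⟩
      · rw [NN_neg, abs_neg]
        exact hN
    refine box_pos hc hP hP3 hexc hb' b1 (by rwa [abs_neg]) (by rwa [abs_neg]) ?_ ?_ ?_
    · have : 2 * -U' + -C' * R = -(2 * U' + C' * R) := by ring
      rw [this, abs_neg]
      exact b4
    · rcases b5 with h | h
      · left; omega
      · right
        rw [abs_neg]
        exact h
    · omega

end Pool.Agent.MP_51245c_nt
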